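import Mathlib

/-!
# Places of a number field above a place of a subfield
-/

set_option autoImplicit false

open NumberField IsDedekindDomain

namespace Pool.Agent.Helper39.NA

variable {Q K : Type} [Field Q] [NumberField Q] [Field K] [NumberField K] [Algebra Q K]

/-- `v` lies above `p` -/
def Ab (p : HeightOneSpectrum (𝓞 Q)) (v : HeightOneSpectrum (𝓞 K)) : Prop :=
  ∀ n : 𝓞 Q, algebraMap (𝓞 Q) (𝓞 K) n ∈ v.asIdeal ↔ n ∈ p.asIdeal

end Pool.Agent.Helper39.NA
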