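import Pool.Agent.Helper39.NA.Near

/-!
# The norm of an adelic Kummer class
-/

set_option autoImplicit false

open NumberField IsDedekindDomain Filter Topology
open Pool.Agent.Y682 Pool.Agent.Helper39.BS

namespace Pool.Agent.Helper39.NA

variable {Q K : Type} [Field Q] [NumberField Q] [Field K] [NumberField K] [Algebra Q K]

/-- `Ξ` is given by a class modulo all `N` -/
def Kum (Ξ : (v : HeightOneSpectrum (𝓞 K)) → v.adicCompletion K) : Prop :=
  ∀ N : ℕ, 0 < N → ∃ a : K, a ≠ 0 ∧ ∀ v, ∃ y : v.adicCompletion K, Ξ v = algebraMap K _ a * y ^ N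

lemma exp_of {q : WithZero (Multiplicative ℤ)} (h : q ≠ 0) : ∃ n : ℤ, q = WithZero.exp n :=
  ⟨WithZero.log q, (WithZero.exp_log h).symm⟩

lemma one_add_eq (p : HeightOneSpectrum (𝓞 Q)) {t : Q} (ht : p.valuation Q t < 1) :
    p.valuation Q (1 + t) = 1 := by
  rw [Valuation.map_add_eq_of_lt_left _ (by rwa [map_one]), map_one]

lemma exists_pi (p : HeightOneSpectrum (𝓞 Q)) : ∃ π : Q, π ≠ 0 ∧
    p.valuation Q π = WithZero.exp (-1 : ℤ) := by
  obtain ⟨π, hπ⟩ := p.valuation_exists_uniformizer Q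
  refine ⟨π, ?_, hπ⟩
  rintro rfl
  rw [map_zero] at hπ
  exact WithZero.exp_ne_zero hπ.symm

lemma val_ne (p : HeightOneSpectrum (𝓞 Q)) {x : Q} (hx : x ≠ 0) : p.valuation Q x ≠ 0 :=
  (Valuation.ne_zero_iff _).2 hx

lemma norm_ne {x : K} (hx : x ≠ 0) : Algebra.norm Q x ≠ 0 := Algebra.norm_ne_zero_iff.2 hx

section

variable {Ξ : (v : HeightOneSpectrum (𝓞 K)) → v.adicCompletion K} (hΞ : ∀ v, Ξ v ≠ 0)
  (hK : Kum Ξ)

include hΞ in
lemma ne_ev (p : HeightOneSpectrum (𝓞 Q)) (hK : Kum Ξ) : ∀ᶠ B in nr p Ξ, B ≠ 0 := by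
  obtain ⟨a, ha, hy⟩ := hK 1 one_pos
  obtain ⟨π, hπ0, hπ⟩ := exists_pi p
  have hπ1 : p.valuation Q π < 1 := by
    rw [hπ, ← WithZero.exp_zero]
    exact WithZero.exp_lt_exp.2 (by norm_num)
  obtain ⟨z, hz, h⟩ := norm_ev (p := p) hΞ ha one_pos hy hπ0 hπ1.le
  filter_upwards [h] with B hB
  obtain ⟨t, ht, h1⟩ := hB
  rintro rfl
  rw [Algebra.norm_zero] at h1
  have h2 := one_add_eq p (ht.trans_lt hπ1)
  have h3 : (1 : Q) + t ≠ 0 := by
    intro h
    rw [h, map_zero] at h2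
    exact zero_ne_one h2
  exact mul_ne_zero (mul_ne_zero (norm_ne ha) (pow_ne_zero _ (norm_ne hz))) h3 h1.symm

include hΞ hK in
/-- the valuation of the norm -/
theorem exists_D (p : HeightOneSpectrum (𝓞 Q)) : ∃ D : ℤ, ∀ᶠ B in nr p Ξ,
    p.valuation Q (Algebra.norm Q B) = WithZero.exp D := by
  obtain ⟨a, ha, hy⟩ := hK 1 one_pos
  obtain ⟨π, hπ0, hπ⟩ := exists_pi p
  have hπ1 : p.valuation Q π < 1 := by
    rw [hπ, ← WithZero.exp_zero]
    exact WithZero.exp_lt_exp.2 (by norm_num)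
  obtain ⟨z, hz, h⟩ := norm_ev (p := p) hΞ ha one_pos hy hπ0 hπ1.le
  obtain ⟨D, hD⟩ := exp_of (val_ne p (mul_ne_zero (norm_ne (Q := Q) ha)
    (pow_ne_zero 1 (norm_ne (Q := Q) hz))))
  refine ⟨D, ?_⟩
  filter_upwards [h] with B hB
  obtain ⟨t, ht, h1⟩ := hB
  rw [h1, map_mul, one_add_eq p (ht.trans_lt hπ1), mul_one, hD]

include hΞ in
/-- the norms of the classes -/
theorem D_mod {p : HeightOneSpectrum (𝓞 Q)} {D : ℤ}
    (hD : ∀ᶠ B in nr p Ξ, p.valuation Q (Algebra.norm Q B) = WithZero.exp D) {N : ℕ} (hN : 0 < N)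
    {a : K} (ha : a ≠ 0) (hy : ∀ v, ∃ y : v.adicCompletion K, Ξ v = algebraMap K _ a * y ^ N) :
    ∃ m : ℤ, p.valuation Q (Algebra.norm Q a) = WithZero.exp (D + N * m) := by
  obtain ⟨π, hπ0, hπ⟩ := exists_pi p
  have hπ1 : p.valuation Q π < 1 := by
    rw [hπ, ← WithZero.exp_zero]
    exact WithZero.exp_lt_exp.2 (by norm_num)
  obtain ⟨z, hz, h⟩ := norm_ev (p := p) hΞ ha hN hy hπ0 hπ1.le
  obtain ⟨B, hB, t, ht, h1⟩ := (hD.and h).exists
  obtain ⟨A, hA⟩ := exp_of (val_ne p (norm_ne (Q := Q) ha))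
  obtain ⟨Z, hZ⟩ := exp_of (val_ne p (norm_ne (Q := Q) hz))
  refine ⟨-Z, ?_⟩
  rw [h1, map_mul, one_add_eq p (ht.trans_lt hπ1), mul_one, map_mul, map_pow, hA, hZ,
    ← WithZero.exp_nsmul, ← WithZero.exp_add, WithZero.exp_inj] at hB
  rw [hA, WithZero.exp_inj]
  rw [nsmul_eq_mul] at hB
  linarith

/-- the valuation is zero if `Ξ` is a unit at all places above -/
theorem D_zero {p : HeightOneSpectrum (𝓞 Q)} {D : ℤ}
    (hD : ∀ᶠ B in nr p Ξ, p.valuation Q (Algebra.norm Q B) = WithZero.exp D)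
    (h1 : ∀ v, Ab p v → vv v (Ξ v) = 1) : D = 0 := by
  have h2 : ∀ᶠ B in nr p Ξ, ∀ v : HeightOneSpectrum (𝓞 K), Ab p v →
      algebraMap K (v.adicCompletion K) B ∈
      {B : v.adicCompletion K | ‖B - Ξ v‖ < 1} := by
    refine ev_all fun v hv => ?_
    refine IsOpen.mem_nhds (isOpen_lt (continuous_id.sub continuous_const).norm
      continuous_const) ?_
    change ‖Ξ v - Ξ v‖ < 1
    rw [sub_self, norm_zero]
    exact one_pos
  obtain ⟨B, hB, hB2⟩ := (hD.and h2).exists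
  have h3 : ∀ v : HeightOneSpectrum (𝓞 K), Ab p v → v.valuation K B = 1 := by
    intro v hv
    have h4 : ¬ ‖(1 : v.adicCompletion K)‖ ≤ ‖algebraMap K (v.adicCompletion K) B - Ξ v‖ := by
      rw [norm_one, not_le]
      exact hB2 v hv
    rw [norm_le_iff, map_one, not_le] at h4
    have h5 : algebraMap K (v.adicCompletion K) B =
        (algebraMap K (v.adicCompletion K) B - Ξ v) + Ξ v := by ring
    rw [← vv_coe, h5, Valuation.map_add_eq_of_lt_right _ (by rwa [h1 v hv]), h1 v hv]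
  have h6 := norm_le p B fun v hv => (h3 v hv).le
  have h7 := norm_le p B⁻¹ fun v hv => by rw [map_inv₀, h3 v hv, inv_one]
  rw [Algebra.norm_inv, map_inv₀, hB, ← WithZero.exp_neg, ← WithZero.exp_zero,
    WithZero.exp_le_exp] at h7
  rw [hB, ← WithZero.exp_zero, WithZero.exp_le_exp] at h6
  omega

end

/-- almost all valuations of an element are trivial -/
lemma val_finite {x : Q} (hx : x ≠ 0) :
    {p : HeightOneSpectrum (𝓞 Q) | p.valuation Q x ≠ 1}.Finite := by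
  refine ((HeightOneSpectrum.Support.finite (𝓞 Q) x).union
    (HeightOneSpectrum.Support.finite (𝓞 Q) x⁻¹)).subset fun p hp => ?_
  rcases lt_or_gt_of_ne (hp : p.valuation Q x ≠ 1) with h | h
  · right
    change 1 < p.valuation Q x⁻¹
    rw [map_inv₀]
    exact (one_lt_inv₀ (zero_lt_iff.2 (val_ne p hx))).2 h
  · left
    exact h

/-- an element with trivial valuations is a unit -/
lemma unit_of {x : Q} (hx0 : x ≠ 0) (hx : ∀ p : HeightOneSpectrum (𝓞 Q), p.valuation Q x = 1) :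
    ∃ u : (𝓞 Q)ˣ, algebraMap (𝓞 Q) Q u = x := by
  obtain ⟨y, hy⟩ := HeightOneSpectrum.mem_integers_of_valuation_le_one Q x fun p => (hx p).le
  obtain ⟨z, hz⟩ := HeightOneSpectrum.mem_integers_of_valuation_le_one Q x⁻¹ fun p => by
    rw [map_inv₀, hx p, inv_one]
  have hyz : y * z = 1 := by
    apply FaithfulSMul.algebraMap_injective (𝓞 Q) Q
    rw [map_mul, hy, hz, mul_inv_cancel₀ hx0, map_one]
  exact ⟨⟨y, z, hyz, by rw [mul_comm, hyz]⟩, hy⟩

/-- **The norm of an adelic class is that of an element.** -/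
theorem exists_n [Finite (𝓞 Q)ˣ] {Ξ : (v : HeightOneSpectrum (𝓞 K)) → v.adicCompletion K}
    (hΞ : ∀ v, Ξ v ≠ 0) (hK : Kum Ξ) (hfin : {v | vv v (Ξ v) ≠ 1}.Finite) :
    ∃ n : Q, n ≠ 0 ∧ (∀ p : HeightOneSpectrum (𝓞 Q), ∀ᶠ B in nr p Ξ,
      p.valuation Q (Algebra.norm Q B) = p.valuation Q n) ∧
      ∀ M' : ℕ, 0 < M' → ∃ (M N : ℕ) (a : K) (γ : Q), 0 < N ∧ M' ∣ M ∧ M ∣ N ∧ a ≠ 0 ∧
        (∀ v, ∃ y : v.adicCompletion K, Ξ v = algebraMap K _ a * y ^ N) ∧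
        Algebra.norm Q a = n * γ ^ M := by
  classical
  choose D hD using fun p : HeightOneSpectrum (𝓞 Q) => exists_D hΞ hK p
  have hDfin : {p | D p ≠ 0}.Finite := by
    have h1 : ∀ p : {p | D p ≠ 0}, ∃ v, Ab p.1 v ∧ vv v (Ξ v) ≠ 1 := by
      rintro ⟨p, hp⟩
      by_contra hcon
      push Not at hcon
      exact hp (D_zero (hD p) hcon)
    choose f hf hf2 using h1
    have hinj : Function.Injective f := by
      rintro ⟨p, hp⟩ ⟨q, hq⟩ h
      apply Subtype.ext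
      apply HeightOneSpectrum.ext
      ext x
      rw [← hf ⟨p, hp⟩ x, h, hf ⟨q, hq⟩ x]
    have h2 : Finite {v | vv v (Ξ v) ≠ 1} := hfin
    exact Set.finite_coe_iff.1 (Finite.of_injective (fun p => (⟨f p, hf2 p⟩ : {v | vv v (Ξ v) ≠ 1}))
      fun p q h => hinj (congrArg Subtype.val h))
  obtain ⟨h, hh, hdiv⟩ := exists_divisor Q
  -- the finiteness of the quotients
  have hm : ∀ (N : ℕ), 0 < N → ∀ a : K, a ≠ 0 →
      (∀ v, ∃ y : v.adicCompletion K, Ξ v = algebraMap K _ a * y ^ N) →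
      ∃ m : HeightOneSpectrum (𝓞 Q) → ℤ, {p | m p ≠ 0}.Finite ∧
        ∀ p, p.valuation Q (Algebra.norm Q a) = WithZero.exp (D p + N * m p) := by
    intro N hN a ha hy
    choose m hm using fun p => D_mod hΞ (hD p) hN ha hy
    refine ⟨m, ((hDfin.union (val_finite (norm_ne (Q := Q) ha)))).subset fun p hp => ?_, hm⟩
    by_contra hcon
    rw [Set.mem_union, not_or] at hcon
    obtain ⟨h1, h2⟩ := hcon
    rw [Set.mem_ofPred_eq, not_not] at h1 h2
    rw [hm p, h1, zero_add, ← WithZero.exp_zero, WithZero.exp_inj] at h2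
    rcases mul_eq_zero.1 h2 with h3 | h3
    · exact hN.ne' (by exact_mod_cast h3)
    · exact hp h3
  -- the element `q` with the divisor `D`
  obtain ⟨q, hq0, hq⟩ : ∃ q : Q, q ≠ 0 ∧ ∀ p : HeightOneSpectrum (𝓞 Q),
      p.valuation Q q = WithZero.exp (D p) := by
    obtain ⟨a, ha, hy⟩ := hK h hh
    obtain ⟨m, hmfin, hm⟩ := hm h hh a ha hy
    obtain ⟨γ, hγ0, hγ⟩ := hdiv m hmfin
    refine ⟨Algebra.norm Q a / γ, div_ne_zero (norm_ne ha) hγ0, fun p => ?_⟩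
    rw [map_div₀, hm, hγ, ← WithZero.exp_sub, add_sub_cancel_right]
  -- the units
  have hu : ∀ M : ℕ, 0 < M → ∃ (a : K) (γ : Q) (u : (𝓞 Q)ˣ), a ≠ 0 ∧
      (∀ v, ∃ y : v.adicCompletion K, Ξ v = algebraMap K _ a * y ^ (h * M)) ∧
      Algebra.norm Q a = q * algebraMap (𝓞 Q) Q u * γ ^ M := by
    intro M hM
    obtain ⟨a, ha, hy⟩ := hK (h * M) (Nat.mul_pos hh hM)
    obtain ⟨m, hmfin, hm⟩ := hm (h * M) (Nat.mul_pos hh hM) a ha hy
    obtain ⟨γ, hγ0, hγ⟩ := hdiv m hmfin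
    have hqγ : q * γ ^ M ≠ 0 := mul_ne_zero hq0 (pow_ne_zero _ hγ0)
    obtain ⟨u, hu⟩ := unit_of (x := Algebra.norm Q a / (q * γ ^ M))
        (div_ne_zero (norm_ne ha) hqγ) fun p => by
      rw [map_div₀, map_mul, map_pow, hm, hq, hγ, ← WithZero.exp_nsmul, ← WithZero.exp_add,
        ← WithZero.exp_sub, ← WithZero.exp_zero, WithZero.exp_inj]
      push_cast
      rw [nsmul_eq_mul]
      ring
    refine ⟨a, γ, u, ha, hy, ?_⟩
    rw [hu]
    field_simp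
  choose! a γ u ha hy hau using hu
  -- pigeonhole
  have := Fintype.ofFinite (𝓞 Q)ˣ
  obtain ⟨ε, hε⟩ : ∃ ε : (𝓞 Q)ˣ, ∀ M' : ℕ, 0 < M' → ∃ M, 0 < M ∧ M' ∣ M ∧ u M = ε := by
    by_contra hcon
    push Not at hcon
    choose M' hM' hM'2 using hcon
    exact hM'2 (u (∏ ε, M' ε)) (∏ ε, M' ε) (Finset.prod_pos fun ε _ => hM' ε)
      (Finset.dvd_prod_of_mem M' (Finset.mem_univ _)) rfl
  have hε0 : algebraMap (𝓞 Q) Q ε ≠ 0 := by
    rw [map_ne_zero_iff _ (FaithfulSMul.algebraMap_injective (𝓞 Q) Q)]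
    exact ε.ne_zero
  refine ⟨q * algebraMap (𝓞 Q) Q ε, mul_ne_zero hq0 hε0, fun p => ?_, fun M' hM' => ?_⟩
  · filter_upwards [hD p] with B hB
    have h1 : p.valuation Q (algebraMap (𝓞 Q) Q ε) = 1 := by
      rw [p.valuation_eq_one_iff_notMem]
      intro h2
      exact p.isPrime.ne_top (Ideal.eq_top_of_isUnit_mem _ h2 ε.isUnit)
    rw [hB, map_mul, h1, mul_one, hq]
  · obtain ⟨M, hM, hd, rfl⟩ := hε M' hM'
    exact ⟨M, h * M, a M, γ M, Nat.mul_pos hh hM, hd, Dvd.intro_left _ rfl, ha M hM, hy M hM,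
      hau M hM⟩

end Pool.Agent.Helper39.NA
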