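import Pool.Agent.Helper39.NA.Div

/-!
# Adelic families of local elements whose differences from elements of a subfield with finitely many
units are given by classes
-/

set_option autoImplicit false

open NumberField IsDedekindDomain Filter Topology Polynomial
open Pool.Agent.Y682 Pool.Agent.Helper39.BS

namespace Pool.Agent.Helper39.NA

variable {Q K : Type} [Field Q] [NumberField Q] [Field K] [NumberField K] [Algebra Q K]

/-- the norms converge to the same element at all places -/
theorem norm_lim [Finite (𝓞 Q)ˣ] {Ξ : (v : HeightOneSpectrum (𝓞 K)) → v.adicCompletion K}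
    (hΞ : ∀ v, Ξ v ≠ 0) (hK : Kum Ξ) (hfin : {v | vv v (Ξ v) ≠ 1}.Finite) :
    ∃ n : Q, ∀ p : HeightOneSpectrum (𝓞 Q), ∀ e : ℕ, ∀ᶠ B in nr p Ξ,
      ∃ w : Q, p.valuation Q w ≤ WithZero.exp (-(e : ℤ)) ∧ Algebra.norm Q B = n * (1 + w) := by
  obtain ⟨n, hn0, hn1, hn2⟩ := exists_n (Q := Q) hΞ hK hfin
  refine ⟨n, fun p e => ?_⟩
  obtain ⟨n₀, hn₀, hnear⟩ := pow_near p e
  obtain ⟨M, N, a, γ, hN, hM, ⟨k, rfl⟩, ha, hy, hna⟩ := hn2 n₀ hn₀
  obtain ⟨r, rfl⟩ := hM
  obtain ⟨π, hπ0, hπ⟩ := exists_pi p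
  have hπe : p.valuation Q (π ^ (e + 1)) = WithZero.exp (-((e + 1 : ℕ) : ℤ)) := by
    rw [map_pow, hπ, ← WithZero.exp_nsmul, WithZero.exp_inj, nsmul_eq_mul]
    push_cast
    ring
  have hπ1 : p.valuation Q (π ^ (e + 1)) < 1 := by
    rw [hπe, ← WithZero.exp_zero]
    exact WithZero.exp_lt_exp.2 (by push_cast; omega)
  obtain ⟨z, hz, h⟩ := norm_ev (p := p) hΞ ha hN hy (pow_ne_zero (e + 1) hπ0) hπ1.le
  filter_upwards [h, hn1 p] with B hB hB2
  obtain ⟨t, ht, h1⟩ := hB
  set y : Q := γ * Algebra.norm Q z ^ k with hydef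
  have h2 : Algebra.norm Q B = n * (y ^ (n₀ * r) * (1 + t)) := by
    rw [h1, hna, hydef, mul_pow]
    ring
  have hM0 : n₀ * r ≠ 0 := by
    rintro h0
    rw [h0] at hN
    omega
  have hy1 : p.valuation Q y = 1 := by
    rw [h2, map_mul, map_mul, one_add_eq p (ht.trans_lt hπ1), mul_one, map_pow] at hB2
    have h3 : p.valuation Q y ^ (n₀ * r) = 1 := by
      have h4 := val_ne p hn0
      exact mul_left_cancel₀ h4 (by rw [hB2, mul_one])
    exact (pow_eq_one_iff_of_nonneg zero_le hM0).1 h3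
  have hy2 : p.valuation Q (y ^ (n₀ * r) - 1) ≤ WithZero.exp (-(e : ℤ)) := by
    have h3 := hnear (algebraMap Q _ (y ^ r)) (by rw [vv_coe, map_pow, hy1, one_pow])
    rw [← map_pow, ← map_one (algebraMap Q (p.adicCompletion Q)), ← map_sub, vv_coe, ← pow_mul,
      mul_comm r] at h3
    exact h3
  have ht2 : p.valuation Q t ≤ WithZero.exp (-(e : ℤ)) := by
    refine ht.trans ?_
    rw [hπe, WithZero.exp_le_exp]
    push_cast
    omega
  have ht3 : p.valuation Q (1 + t) = 1 := one_add_eq p (ht.trans_lt hπ1)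
  refine ⟨(y ^ (n₀ * r) - 1) * (1 + t) + t, ?_, ?_⟩
  · refine (Valuation.map_add _ _ _).trans (max_le ?_ ht2)
    rw [map_mul, ht3, mul_one]
    exact hy2
  · rw [h2]
    ring

/-- a sequence tending to zero at `p` tends to zero at `v` -/
lemma tendsto_zero {p : HeightOneSpectrum (𝓞 Q)} {v : HeightOneSpectrum (𝓞 K)}
    (h1 : ∀ x : Q, p.valuation Q x ≤ 1 → v.valuation K (algebraMap Q K x) ≤ 1)
    (h2 : ∀ x : Q, p.valuation Q x < 1 → v.valuation K (algebraMap Q K x) < 1)
    {ι : Type} {F : Filter ι} {f : ι → Q}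
    (hf : ∀ e : ℕ, ∀ᶠ i in F, p.valuation Q (f i) ≤ WithZero.exp (-(e : ℤ))) :
    Tendsto (fun i => algebraMap K (v.adicCompletion K) (algebraMap Q K (f i))) F (𝓝 0) := by
  obtain ⟨π, hπ0, hπ⟩ := exists_pi p
  have hπ1 : p.valuation Q π < 1 := by
    rw [hπ, ← WithZero.exp_zero]
    exact WithZero.exp_lt_exp.2 (by norm_num)
  have hn : ‖algebraMap K (v.adicCompletion K) (algebraMap Q K π)‖ < 1 := by
    rw [← norm_one (α := v.adicCompletion K), ← not_le, norm_le_iff, not_le, map_one, vv_coe]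
    exact h2 π hπ1
  rw [Metric.tendsto_nhds]
  intro ε hε
  obtain ⟨e, he⟩ := exists_pow_lt_of_lt_one hε hn
  filter_upwards [hf e] with i hi
  rw [dist_zero_right]
  refine lt_of_le_of_lt ?_ he
  rw [← norm_pow, norm_le_iff, ← map_pow, ← map_pow, vv_coe, vv_coe]
  have h3 : f i = f i / π ^ e * π ^ e := by
    have : π ^ e ≠ 0 := pow_ne_zero _ hπ0
    field_simp
  have h4 : p.valuation Q (f i / π ^ e) ≤ 1 := by
    rw [map_div₀, map_pow, hπ, ← WithZero.exp_nsmul]
    rw [div_le_one₀ (by exact zero_lt_iff.2 WithZero.exp_ne_zero)]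
    refine hi.trans (le_of_eq ?_)
    rw [WithZero.exp_inj, nsmul_eq_mul]
    ring
  rw [h3, map_mul, map_mul]
  exact mul_le_of_le_one_left' (h1 _ h4)

/-- **The elements are the zeros of one polynomial.** -/
theorem exists_poly [Finite (𝓞 Q)ˣ] {m : ℕ} (hm : Module.finrank Q K = m) {c : Fin m → Q}
    (hc : Function.Injective c) {ξ : (v : HeightOneSpectrum (𝓞 K)) → v.adicCompletion K}
    (hne : ∀ i v, ξ v - algebraMap K _ (algebraMap Q K (c i)) ≠ 0)
    (hK : ∀ i, Kum fun v => ξ v - algebraMap K _ (algebraMap Q K (c i)))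
    (hfin : ∀ i, {v | vv v (ξ v - algebraMap K _ (algebraMap Q K (c i))) ≠ 1}.Finite) :
    ∃ P : Q[X], P.Monic ∧ P.natDegree = m ∧
      ∀ v, aeval (ξ v) (P.map (algebraMap Q K)) = 0 := by
  choose n hn using fun i => norm_lim (Q := Q) (hne i) (hK i) (hfin i)
  obtain ⟨P, l, hP, hPd, hPl⟩ := interp hm hc n
  refine ⟨P, hP, hPd, fun v => ?_⟩
  obtain ⟨p, hpv, hp1, hp2⟩ := exists_below (Q := Q) v
  have h1 : Tendsto (fun b : K => algebraMap K (v.adicCompletion K) (aeval b P)) (nr p ξ)
      (𝓝 (aeval (ξ v) (P.map (algebraMap Q K)))) := by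
    have h2 : ∀ b : K, algebraMap K (v.adicCompletion K) (aeval b P) =
        aeval (algebraMap K (v.adicCompletion K) b) (P.map (algebraMap Q K)) := by
      intro b
      rw [aeval_algebraMap_apply, aeval_map_algebraMap]
    simp_rw [h2]
    have h3 : Continuous fun x : v.adicCompletion K => aeval x (P.map (algebraMap Q K)) :=
      Polynomial.continuous_aeval _
    exact (h3.tendsto _).comp (tendsto_nr hpv)
  have h4 : Tendsto (fun b : K => algebraMap K (v.adicCompletion K) (aeval b P)) (nr p ξ)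
      (𝓝 0) := by
    have h5 : ∀ b : K, algebraMap K (v.adicCompletion K) (aeval b P) =
        ∑ i, algebraMap K (v.adicCompletion K) (algebraMap Q K
          (n i - Algebra.norm Q (b - algebraMap Q K (c i)))) *
          aeval (algebraMap K (v.adicCompletion K) b) ((l i).map (algebraMap Q K)) := by
      intro b
      rw [hPl b, map_sum]
      refine Finset.sum_congr rfl fun i _ => ?_
      rw [map_mul, aeval_algebraMap_apply, aeval_map_algebraMap]
    simp_rw [h5]
    rw [← Finset.sum_const_zero (s := (Finset.univ : Finset (Fin m)))]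
    refine tendsto_finsetSum _ fun i _ => ?_
    have h6 : Continuous fun x : v.adicCompletion K => aeval x ((l i).map (algebraMap Q K)) :=
      Polynomial.continuous_aeval _
    have h7 := (h6.tendsto _).comp (tendsto_nr (ξ := ξ) hpv)
    have h8 : Tendsto (fun b : K => algebraMap K (v.adicCompletion K) (algebraMap Q K
        (n i - Algebra.norm Q (b - algebraMap Q K (c i))))) (nr p ξ) (𝓝 0) := by
      refine tendsto_zero hp1 hp2 fun e => ?_
      obtain ⟨E, hE⟩ : ∃ E : ℕ, p.valuation Q (n i) ≤ WithZero.exp (E : ℤ) := by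
        by_cases h0 : n i = 0
        · exact ⟨0, by rw [h0, map_zero]; exact zero_le⟩
        · obtain ⟨E, hE⟩ := exp_of (val_ne p h0)
          exact ⟨E.toNat, by rw [hE, WithZero.exp_le_exp]; exact Int.self_le_toNat E⟩
      have h9 := (nr_sub (p := p) (ξ := ξ) (algebraMap Q K (c i))).eventually (hn i p (e + E))
      filter_upwards [h9] with b hb
      obtain ⟨w, hw, hw2⟩ := hb
      have h10 : n i - Algebra.norm Q (b - algebraMap Q K (c i)) = -(n i * w) := by
        rw [hw2]
        ring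
      rw [h10, Valuation.map_neg, map_mul]
      refine (mul_le_mul' hE hw).trans ?_
      rw [← WithZero.exp_add, WithZero.exp_le_exp]
      push_cast
      omega
    simpa using h8.mul h7
  exact tendsto_nhds_unique h1 h4

end Pool.Agent.Helper39.NA
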