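import Pool.Agent.Helper39.BS.Core
import Pool.Graph.R_seed8.TH954.SUni

/-!
# The places of the algebraic closure above a rational point
-/

set_option autoImplicit false

open Polynomial IsDedekindDomain NumberField
open Pool.Agent.TH954

namespace Pool.Agent.Helper39.NA

section

variable {k F Ω : Type} [Field k] [Field F] [Field Ω] [Algebra k F] [Algebra F Ω]
  [Algebra k Ω] [IsScalarTower k F Ω]

lemma lt_one_iff {M : Type} [Field M] (W : ValuationSubring M) (y : M) :
    W.valuation y < 1 ↔ y ∈ W ∧ (y = 0 ∨ y⁻¹ ∉ W) := by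
  constructor
  · intro h
    refine ⟨(W.valuation_le_one_iff y).1 h.le, ?_⟩
    by_cases hy : y = 0
    · exact Or.inl hy
    · right
      rw [← W.valuation_le_one_iff, not_le, map_inv₀]
      exact (one_lt_inv₀ (zero_lt_iff.2 ((Valuation.ne_zero_iff _).2 hy))).2 h
  · rintro ⟨h, rfl | h2⟩
    · rw [map_zero]
      exact zero_lt_one
    · rw [← W.valuation_le_one_iff, not_le, map_inv₀] at h2
      have h3 : W.valuation y ≠ 0 := by
        intro h4
        rw [h4, inv_zero] at h2
        exact not_lt_zero h2
      exact (one_lt_inv₀ (zero_lt_iff.2 h3)).1 h2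

lemma lt_one_comap {O : ValuationSubring F} {W : ValuationSubring Ω}
    (hW : W.comap (algebraMap F Ω) = O) {y : F} (h : O.valuation y < 1) :
    W.valuation (algebraMap F Ω y) < 1 := by
  rw [lt_one_iff] at h ⊢
  subst hW
  refine ⟨h.1, ?_⟩
  rcases h.2 with h2 | h2
  · left
    rw [h2, map_zero]
  · right
    rw [← map_inv₀]
    exact h2

/-- the residue field of a place above a rational point is the algebraic closure -/
theorem exists_const [IsAlgClosure F Ω] {O : ValuationSubring F} {W : ValuationSubring Ω}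
    (hW : W.comap (algebraMap F Ω) = O) (h1 : ∀ c : k, algebraMap k F c ∈ O)
    (h2 : ∀ a ∈ O, ∃ c : k, O.valuation (a - algebraMap k F c) < 1) {x : Ω} (hx : x ∈ W) :
    ∃ z : algebraicClosure k Ω, W.valuation (x - z) < 1 := by
  classical
  have hΩ1 : IsAlgClosed Ω := IsAlgClosure.isAlgClosed F
  have hΩ2 : Algebra.IsAlgebraic F Ω := IsAlgClosure.isAlgebraic
  obtain ⟨p, hp0, hp⟩ := hΩ2.isAlgebraic x
  obtain ⟨i0, hi0, hmax⟩ := Finset.exists_max_image p.support (fun i => O.valuation (p.coeff i))
    (Polynomial.support_nonempty.2 hp0)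
  have hc0 : p.coeff i0 ≠ 0 := mem_support_iff.1 hi0
  have hq : ∀ i, p.coeff i / p.coeff i0 ∈ O := by
    intro i
    by_cases hi : i ∈ p.support
    · rw [← O.valuation_le_one_iff, map_div₀]
      exact div_le_one_of_le₀ (hmax i hi) zero_le
    · rw [notMem_support_iff.1 hi, zero_div]
      exact zero_mem _
  choose b hb using fun i => h2 _ (hq i)
  set g : k[X] := ∑ i ∈ p.support, C (b i) * X ^ i with hg
  have hgc : g.coeff i0 = b i0 := by
    rw [hg, finsetSum_coeff]
    simp only [coeff_C_mul_X_pow]
    rw [Finset.sum_eq_single i0]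
    · rw [if_pos rfl]
    · intro j _ hj
      rw [if_neg (Ne.symm hj)]
    · intro h
      exact absurd hi0 h
  have hb0 : b i0 ≠ 0 := by
    intro h
    have h3 := hb i0
    rw [h, map_zero, sub_zero, div_self hc0, map_one] at h3
    exact lt_irrefl _ h3
  have hg0 : g ≠ 0 := by
    intro h
    rw [h, coeff_zero] at hgc
    exact hb0 hgc.symm
  have hconst : ∀ c : k, algebraMap k Ω c ∈ W := by
    intro c
    have := h1 c
    rw [← hW] at this
    rw [IsScalarTower.algebraMap_apply k F Ω]
    exact this
  -- the value of `g` at `x` is in the maximal ideal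
  have hgx : W.valuation (aeval x g) < 1 := by
    have h3 : aeval x g = -∑ i ∈ p.support,
        algebraMap F Ω (p.coeff i / p.coeff i0 - algebraMap k F (b i)) * x ^ i := by
      have h4 : ∑ i ∈ p.support, algebraMap F Ω (p.coeff i / p.coeff i0) * x ^ i = 0 := by
        have h5 : ∑ i ∈ p.support, algebraMap F Ω (p.coeff i) * x ^ i = 0 := by
          have h6 := hp
          rw [aeval_def, eval₂_eq_sum, Polynomial.sum] at h6
          exact h6
        have h7 : ∀ i, algebraMap F Ω (p.coeff i / p.coeff i0) * x ^ i =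
            algebraMap F Ω (p.coeff i0)⁻¹ * (algebraMap F Ω (p.coeff i) * x ^ i) := by
          intro i
          rw [div_eq_inv_mul, map_mul, mul_assoc]
        simp_rw [h7]
        rw [← Finset.mul_sum, h5, mul_zero]
      simp only [map_sub, sub_mul, Finset.sum_sub_distrib]
      rw [h4, zero_sub, neg_neg, hg, map_sum]
      refine Finset.sum_congr rfl fun i _ => ?_
      rw [map_mul, aeval_C, map_pow, aeval_X, ← IsScalarTower.algebraMap_apply]
    rw [h3, Valuation.map_neg]
    refine Valuation.map_sum_lt _ one_ne_zero fun i _ => ?_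
    rw [map_mul, map_pow]
    refine lt_of_le_of_lt (mul_le_of_le_one_right' (pow_le_one₀ zero_le
      ((W.valuation_le_one_iff x).2 hx))) (lt_one_comap hW (hb i))
  -- the roots
  have hspl : (g.map (algebraMap k Ω)).Splits := IsAlgClosed.splits _
  have hprod : aeval x g = algebraMap k Ω g.leadingCoeff *
      (((g.map (algebraMap k Ω)).roots).map fun θ => x - θ).prod := by
    have h3 := hspl.eval_eq_prod_roots x
    rw [eval_map_algebraMap, leadingCoeff_map] at h3
    exact h3
  have hlead : W.valuation (algebraMap k Ω g.leadingCoeff) = 1 := by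
    have h3 : g.leadingCoeff ≠ 0 := leadingCoeff_ne_zero.2 hg0
    have h4 : algebraMap k Ω g.leadingCoeff ≠ 0 := (_root_.map_ne_zero _).2 h3
    refine le_antisymm ((W.valuation_le_one_iff _).2 (hconst _)) ?_
    have h5 := (W.valuation_le_one_iff _).2 (hconst g.leadingCoeff⁻¹)
    rw [map_inv₀, map_inv₀] at h5
    exact (inv_le_one₀ (zero_lt_iff.2 ((Valuation.ne_zero_iff _).2 h4))).1 h5
  rw [hprod, map_mul, hlead, one_mul] at hgx
  obtain ⟨θ, hθ, hθx⟩ : ∃ θ ∈ (g.map (algebraMap k Ω)).roots, W.valuation (x - θ) < 1 := by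
    by_contra hcon
    push Not at hcon
    have h3 : ∀ s : Multiset Ω, (∀ θ ∈ s, 1 ≤ W.valuation (x - θ)) →
        1 ≤ W.valuation ((s.map fun θ => x - θ).prod) := by
      intro s
      induction s using Multiset.induction_on with
      | empty => intro _; simp
      | cons a s ih =>
        intro h
        rw [Multiset.map_cons, Multiset.prod_cons, map_mul]
        exact one_le_mul (h a (Multiset.mem_cons_self a s))
          (ih fun θ hθ => h θ (Multiset.mem_cons_of_mem hθ))
    exact absurd (h3 _ hcon) (not_le.2 hgx)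
  have hθalg : θ ∈ algebraicClosure k Ω := by
    rw [mem_algebraicClosure_iff]
    refine ⟨g, hg0, ?_⟩
    have h3 := (mem_roots'.1 hθ).2
    rwa [IsRoot.def, eval_map_algebraMap] at h3
  exact ⟨⟨θ, hθalg⟩, hθx⟩

/-- the place above a rational point with values in an algebraically closed extension -/
theorem exists_global [CharZero k] [IsAlgClosure F Ω] {O : ValuationSubring F}
    {W : ValuationSubring Ω}
    (hW : W.comap (algebraMap F Ω) = O) (h1 : ∀ c : k, algebraMap k F c ∈ O)
    (h2 : ∀ a ∈ O, ∃ c : k, O.valuation (a - algebraMap k F c) < 1)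
    {R : Type} [Field R] [Algebra k R] (ι : algebraicClosure k Ω →ₐ[k] R) :
    ∃ p : Plc k Ω R, ∀ (x : Ω) (c : R), p.val x c ↔
      ∃ z : algebraicClosure k Ω, W.valuation (x - z) < 1 ∧ ι z = c := by
  have hΩ1 : IsAlgClosed Ω := IsAlgClosure.isAlgClosed F
  have hconst : ∀ c : k, algebraMap k Ω c ∈ W := by
    intro c
    have := h1 c
    rw [← hW] at this
    rw [IsScalarTower.algebraMap_apply k F Ω]
    exact this
  have hmem : ∀ z : algebraicClosure k Ω, algebraMap (algebraicClosure k Ω) Ω z ∈ W := fun z =>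
    mem_of_integralW hconst ((mem_algebraicClosure_iff.1 z.2).isIntegral)
  let i : algebraicClosure k Ω →+* W :=
    (algebraMap (algebraicClosure k Ω) Ω).codRestrict W hmem
  let φ : algebraicClosure k Ω →+* IsLocalRing.ResidueField W := (IsLocalRing.residue W).comp i
  have hres : ∀ (a : W) (z : algebraicClosure k Ω), W.valuation ((a : Ω) - z) < 1 ↔
      φ z = IsLocalRing.residue W a := by
    intro a z
    have h3 : W.valuation ((a : Ω) - z) < 1 ↔ a - i z ∈ IsLocalRing.maximalIdeal W :=
      (ValuationSubring.valuation_lt_one_iff W (a - i z)).symm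
    rw [h3, ← IsLocalRing.residue_eq_zero_iff, map_sub, sub_eq_zero]
    exact eq_comm
  have hsurj : Function.Surjective φ := by
    intro r
    obtain ⟨a, rfl⟩ := IsLocalRing.residue_surjective r
    obtain ⟨z, hz⟩ := exists_const hW h1 h2 a.2
    exact ⟨z, (hres a z).1 hz⟩
  let e : algebraicClosure k Ω ≃+* IsLocalRing.ResidueField W :=
    RingEquiv.ofBijective φ ⟨φ.injective, hsurj⟩
  have he : ∀ (a : W) (z : algebraicClosure k Ω), W.valuation ((a : Ω) - z) < 1 ↔
      e.symm (IsLocalRing.residue W a) = z := by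
    intro a z
    rw [hres, RingEquiv.symm_apply_eq]
    exact eq_comm
  refine ⟨{ W := W
            ρ := ((ι : algebraicClosure k Ω →+* R).comp
              (e.symm : IsLocalRing.ResidueField W →+* algebraicClosure k Ω)).comp
              (IsLocalRing.residue W)
            loc := fun a ha => ?_
            comm := fun c => ⟨hconst c, ?_⟩ }, fun x c => ?_⟩
  · have h3 : IsLocalRing.residue W a ≠ 0 := by
      intro h
      apply ha
      rw [RingHom.comp_apply, h, map_zero]
    rw [Ne, IsLocalRing.residue_eq_zero_iff, IsLocalRing.notMem_maximalIdeal] at h3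
    obtain ⟨u, hu⟩ := h3
    have h4 : (a : Ω)⁻¹ = ((u⁻¹ : Wˣ) : W) := by
      apply inv_eq_of_mul_eq_one_right
      have h5 := congrArg (fun v : W => (v : Ω)) (u.mul_inv)
      rw [hu] at h5
      exact h5
    rw [h4]
    exact ((u⁻¹ : Wˣ) : W).2
  · have h3 := (he ⟨algebraMap k Ω c, hconst c⟩ (algebraMap k _ c)).1 (by
      change W.valuation (algebraMap k Ω c - algebraMap k Ω c) < 1
      rw [sub_self, map_zero]
      exact zero_lt_one)
    change ι (e.symm (IsLocalRing.residue W ⟨algebraMap k Ω c, hconst c⟩)) = _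
    rw [h3, ι.commutes]
  · constructor
    · rintro ⟨hx, hxc⟩
      exact ⟨_, (he ⟨x, hx⟩ _).2 rfl, hxc⟩
    · rintro ⟨z, hz, rfl⟩
      have hx : x ∈ W := by
        have h3 := add_mem ((lt_one_iff W _).1 hz).1 (hmem z)
        have h4 : x - (z : Ω) + algebraMap (algebraicClosure k Ω) Ω z = x := by
          change x - (z : Ω) + z = x
          ring
        rwa [h4] at h3
      refine ⟨hx, ?_⟩
      change ι (e.symm (IsLocalRing.residue W ⟨x, hx⟩)) = _
      rw [(he ⟨x, hx⟩ z).1 hz]

end

end Pool.Agent.Helper39.NA
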