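import Pool.Agent.Helper39.NA.Sheet
import Pool.Agent.Helper39.BS.Pow

/-!
# Elements close to given local elements, and their norms
-/

set_option autoImplicit false

open NumberField IsDedekindDomain Filter Topology
open Pool.Agent.Y682 Pool.Agent.Helper39.BS

namespace Pool.Agent.Helper39.NA

variable {Q K : Type} [Field Q] [NumberField Q] [Field K] [NumberField K] [Algebra Q K]

/-- the elements of `K` close to `ξ v` for all `v` above `p` -/
noncomputable def nr (p : HeightOneSpectrum (𝓞 Q))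
    (ξ : (v : HeightOneSpectrum (𝓞 K)) → v.adicCompletion K) : Filter K :=
  ⨅ v : {v : HeightOneSpectrum (𝓞 K) // Ab p v},
    comap (algebraMap K (v.1.adicCompletion K)) (𝓝 (ξ v.1))

variable {p : HeightOneSpectrum (𝓞 Q)}
  {ξ : (v : HeightOneSpectrum (𝓞 K)) → v.adicCompletion K}

lemma tendsto_nr {v : HeightOneSpectrum (𝓞 K)} (hv : Ab p v) :
    Tendsto (algebraMap K (v.adicCompletion K)) (nr p ξ) (𝓝 (ξ v)) :=
  tendsto_iff_comap.2 (iInf_le (fun v : {v : HeightOneSpectrum (𝓞 K) // Ab p v} =>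
    comap (algebraMap K (v.1.adicCompletion K)) (𝓝 (ξ v.1))) ⟨v, hv⟩)

lemma ev_nr {v : HeightOneSpectrum (𝓞 K)} (hv : Ab p v) {S : Set (v.adicCompletion K)}
    (hS : S ∈ 𝓝 (ξ v)) : ∀ᶠ b in nr p ξ, algebraMap K (v.adicCompletion K) b ∈ S :=
  (tendsto_nr hv).eventually hS

lemma ev_all {S : (v : HeightOneSpectrum (𝓞 K)) → Set (v.adicCompletion K)}
    (hS : ∀ v, Ab p v → S v ∈ 𝓝 (ξ v)) :
    ∀ᶠ b in nr p ξ, ∀ v, Ab p v → algebraMap K (v.adicCompletion K) b ∈ S v := by
  have := (eventually_all_finite (ab_finite (K := K) p) (l := nr p ξ)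
    (p := fun v b => algebraMap K (v.adicCompletion K) b ∈ S v)).2
      (fun v hv => ev_nr hv (hS v hv))
  exact this

instance nr_neBot : (nr p ξ).NeBot := by
  classical
  have hfin : Finite {v : HeightOneSpectrum (𝓞 K) // Ab p v} := ab_finite (K := K) p
  have := Fintype.ofFinite {v : HeightOneSpectrum (𝓞 K) // Ab p v}
  rw [neBot_iff]
  intro hbot
  have h1 : (∅ : Set K) ∈ nr p ξ := by
    rw [hbot]
    exact mem_bot
  rw [nr, mem_iInf_of_finite] at h1
  obtain ⟨t, ht, he⟩ := h1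
  have h2 : ∀ v : {v : HeightOneSpectrum (𝓞 K) // Ab p v}, ∃ U : Set (v.1.adicCompletion K),
      IsOpen U ∧ ξ v.1 ∈ U ∧ ∀ b : K, algebraMap K (v.1.adicCompletion K) b ∈ U → b ∈ t v := by
    intro v
    obtain ⟨W, hW, hWt⟩ := mem_comap.1 (ht v)
    obtain ⟨U, hUW, hU, hξ⟩ := mem_nhds_iff.1 hW
    exact ⟨U, hU, hξ, fun b hb => hWt (hUW hb)⟩
  choose U hU hξ hUt using h2
  obtain ⟨b, hb⟩ := weak (K := K) (Finset.univ : Finset {v : HeightOneSpectrum (𝓞 K) // Ab p v})
    (fun v => v.1) (fun i _ j _ hij h => hij (Subtype.ext h)) U (fun i _ => hU i)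
    (fun i _ => ⟨ξ i.1, hξ i⟩)
  have h3 : b ∈ (∅ : Set K) := by
    rw [he, Set.mem_iInter]
    exact fun i => hUt i b (hb i (Finset.mem_univ i))
  exact h3

section norms

variable (hξ : ∀ v, ξ v ≠ 0) {a : K} (ha : a ≠ 0) {N : ℕ} (hN : 0 < N)
  (hy : ∀ v, ∃ y : v.adicCompletion K, ξ v = algebraMap K _ a * y ^ N)

include hξ ha hN hy in
/-- elements close to `a y ^ N` are `a z ^ N` up to elements close to `1` -/
theorem approx {t : Q} (ht : t ≠ 0) : ∃ z : K, z ≠ 0 ∧ ∀ᶠ B in nr p ξ,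
    ∃ u : K, (∀ v : HeightOneSpectrum (𝓞 K), Ab p v → v.valuation K u ≤ 1) ∧
      B = a * z ^ N * (1 + algebraMap Q K t * u) := by
  classical
  choose y hy using hy
  have hy0 : ∀ v, y v ≠ 0 := by
    intro v h
    apply hξ v
    rw [hy v, h, zero_pow hN.ne', mul_zero]
  have haK : ∀ v : HeightOneSpectrum (𝓞 K), algebraMap K (v.adicCompletion K) a ≠ 0 := fun v =>
    (_root_.map_ne_zero _).2 ha
  have htK : algebraMap Q K t ≠ 0 := (_root_.map_ne_zero _).2 ht
  have htv : ∀ v : HeightOneSpectrum (𝓞 K),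
      0 < ‖algebraMap K (v.adicCompletion K) (algebraMap Q K t)‖ := fun v =>
    norm_pos_iff.2 ((_root_.map_ne_zero _).2 htK)
  -- the element `z`
  have h1 : ∀ᶠ z in nr p y, ∀ v, Ab p v → algebraMap K (v.adicCompletion K) z ∈
      {z : v.adicCompletion K | z ≠ 0 ∧ ‖ξ v / (algebraMap K _ a * z ^ N) - 1‖ <
        ‖algebraMap K (v.adicCompletion K) (algebraMap Q K t)‖} := by
    refine ev_all fun v hv => ?_
    have h2 : ContinuousAt (fun z : v.adicCompletion K => ξ v / (algebraMap K _ a * z ^ N) - 1)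
        (y v) := by
      refine ContinuousAt.sub (ContinuousAt.div continuousAt_const
        (continuousAt_const.mul (continuousAt_id.pow N)) ?_) continuousAt_const
      exact mul_ne_zero (haK v) (pow_ne_zero _ (hy0 v))
    have h3 : (fun z : v.adicCompletion K => ξ v / (algebraMap K _ a * z ^ N) - 1) (y v) = 0 := by
      change ξ v / (algebraMap K _ a * y v ^ N) - 1 = 0
      rw [← hy v, div_self (hξ v), sub_self]
    have h4 := h2.norm
    have h5 : ∀ᶠ z in 𝓝 (y v), ‖ξ v / (algebraMap K _ a * z ^ N) - 1‖ <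
        ‖algebraMap K (v.adicCompletion K) (algebraMap Q K t)‖ := by
      apply h4.eventually_lt continuousAt_const
      change ‖ξ v / (algebraMap K _ a * y v ^ N) - 1‖ < _
      rw [← hy v, div_self (hξ v), sub_self, norm_zero]
      exact htv v
    exact Filter.inter_mem (isOpen_ne.mem_nhds (hy0 v)) h5
  obtain ⟨z, hz0, hz⟩ : ∃ z : K, z ≠ 0 ∧ ∀ v, Ab p v → algebraMap K (v.adicCompletion K) z ∈
      {z : v.adicCompletion K | z ≠ 0 ∧ ‖ξ v / (algebraMap K _ a * z ^ N) - 1‖ <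
        ‖algebraMap K (v.adicCompletion K) (algebraMap Q K t)‖} := by
    by_cases hne : ∃ v : HeightOneSpectrum (𝓞 K), Ab p v
    · obtain ⟨v, hv⟩ := hne
      obtain ⟨z, hz⟩ := h1.exists
      refine ⟨z, fun h0 => (hz v hv).1 ?_, hz⟩
      rw [h0, map_zero]
    · exact ⟨1, one_ne_zero, fun v hv => absurd ⟨v, hv⟩ hne⟩
  refine ⟨z, hz0, ?_⟩
  have h6 : ∀ᶠ B : K in nr p ξ, ∀ v : HeightOneSpectrum (𝓞 K), Ab p v → algebraMap K (v.adicCompletion K) B ∈
      {B : v.adicCompletion K | ‖B / (algebraMap K (v.adicCompletion K) a *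
        algebraMap K (v.adicCompletion K) z ^ N) - 1‖ <
        ‖algebraMap K (v.adicCompletion K) (algebraMap Q K t)‖} := by
    refine ev_all fun v hv => ?_
    refine IsOpen.mem_nhds ?_ (hz v hv).2
    exact isOpen_lt ((continuous_id.div_const _).sub continuous_const).norm continuous_const
  filter_upwards [h6] with B hB
  refine ⟨(B / (a * z ^ N) - 1) / algebraMap Q K t, fun v hv => ?_, ?_⟩
  · have h7 := (hB v hv).le
    rw [norm_le_iff, ← map_pow, ← map_mul, ← map_div₀, ← map_one (algebraMap K _), ← map_sub,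
      vv_coe, vv_coe] at h7
    rw [map_div₀]
    exact (div_le_one₀ (zero_lt_iff.2 ((Valuation.ne_zero_iff _).2 htK))).2 h7
  · have h8 : a * z ^ N ≠ 0 := mul_ne_zero ha (pow_ne_zero _ hz0)
    rw [mul_div_cancel₀ _ htK]
    field_simp
    ring

include hξ ha hN hy in
/-- the norms -/
theorem norm_ev {t : Q} (ht : t ≠ 0) (ht1 : p.valuation Q t ≤ 1) : ∃ z : K, z ≠ 0 ∧
    ∀ᶠ B in nr p ξ, ∃ t' : Q, p.valuation Q t' ≤ p.valuation Q t ∧
      Algebra.norm Q B = Algebra.norm Q a * Algebra.norm Q z ^ N * (1 + t') := by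
  obtain ⟨z, hz, h⟩ := approx (p := p) hξ ha hN hy ht
  refine ⟨z, hz, ?_⟩
  filter_upwards [h] with B hB
  obtain ⟨u, hu, rfl⟩ := hB
  obtain ⟨w, hw, hw2⟩ := norm_near p t ht1 u hu
  refine ⟨t * w, ?_, ?_⟩
  · rw [map_mul]
    exact mul_le_of_le_one_right' hw
  · rw [map_mul, map_mul, map_pow, hw2]

end norms

lemma nr_sub (c : K) : Tendsto (fun b => b - c) (nr p ξ)
    (nr p fun v => ξ v - algebraMap K (v.adicCompletion K) c) := by
  refine tendsto_iInf.2 fun v => tendsto_comap_iff.2 ?_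
  have h1 := (tendsto_nr (ξ := ξ) v.2).sub_const (algebraMap K (v.1.adicCompletion K) c)
  refine h1.congr fun b => ?_
  rw [Function.comp_apply, map_sub]

end Pool.Agent.Helper39.NA
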