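import Pool.Agent.Helper71.NA.Cls
import Pool.Agent.Helper71.NA.Interp
import Pool.Agent.Helper82.NA.Nrm

/-!
# The lemmas on norms, divisors and interpolation (helper82, helper71)
-/

set_option autoImplicit false

namespace Pool.Agent.Helper39.NA

export Pool.Agent.Helper82.NA (norm_le norm_near ab_finite exists_below)
export Pool.Agent.Helper71.NA (exists_divisor interp)

end Pool.Agent.Helper39.NA
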